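import Pool.Agent.MP_696f7f_ag.H96.Beta

/-! Additive invariants of sets covered by finitely many compatible charts. -/

namespace Pool.Agent.MP_696f7f_ag.H75

open Pool.Agent.MP_696f7f_ag.H96

section Constr

variable {B : Type} [CommRing B] [Algebra ℝ B]

theorem constr_univ : Constr (Set.univ : Set (Pt B)) := by
  have h := Constr.zero (B := B) 0
  have e : {b : Pt B | b 0 = 0} = Set.univ := by ext b; simp
  rwa [e] at h

theorem constr_empty : Constr (∅ : Set (Pt B)) := by
  have h := (constr_univ (B := B)).compl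
  rwa [Set.compl_univ] at h

theorem constr_inter {S T : Set (Pt B)} (hS : Constr S) (hT : Constr T) : Constr (S ∩ T) := by
  have h := (hS.compl.union hT.compl).compl
  rwa [Set.compl_union, compl_compl, compl_compl] at h

theorem constr_diff {S T : Set (Pt B)} (hS : Constr S) (hT : Constr T) : Constr (S \ T) :=
  constr_inter hS hT.compl

theorem constr_finset (s : Finset B) : Constr {b : Pt B | ∀ f ∈ s, b f = 0} := by
  classical
  induction s using Finset.induction_on with
  | empty =>
    have e : {b : Pt B | ∀ f ∈ (∅ : Finset B), b f = 0} = Set.univ := by ext b; simp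
    rw [e]; exact constr_univ
  | insert a s _ ih =>
    have e : {b : Pt B | ∀ f ∈ insert a s, b f = 0} =
        {b : Pt B | b a = 0} ∩ {b : Pt B | ∀ f ∈ s, b f = 0} := by ext b; simp
    rw [e]; exact constr_inter (Constr.zero a) ih

theorem constr_ideal [Algebra.FiniteType ℝ B] (I : Ideal B) :
    Constr {b : Pt B | ∀ f ∈ I, b f = 0} := by
  have : IsNoetherianRing B := Algebra.FiniteType.isNoetherianRing ℝ B
  obtain ⟨s, hs⟩ : I.FG := IsNoetherian.noetherian I
  have e : {b : Pt B | ∀ f ∈ I, b f = 0} = {b : Pt B | ∀ f ∈ s, b f = 0} := by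
    ext b
    simp only [Set.mem_ofPred_eq]
    constructor
    · intro h f hf
      exact h f (hs ▸ Ideal.subset_span hf)
    · intro h f hf
      rw [← hs] at hf
      have : Ideal.span (s : Set B) ≤ RingHom.ker (b : B →+* ℝ) :=
        Ideal.span_le.mpr fun g hg => h g hg
      exact this hf
  rw [e]; exact constr_finset s

end Constr

/-- a chart on a set `P`: an injection of the real points of a finitely generated algebra -/
structure Chart (P : Type) : Type 1 where
  B : Type
  [cr : CommRing B]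
  [alg : Algebra ℝ B]
  [ft : Algebra.FiniteType ℝ B]
  c : Pt B → P
  inj : Function.Injective c

attribute [instance] Chart.cr Chart.alg Chart.ft

variable {P Q : Type}

/-- the transition from `g` to `g'` is defined on a constructible set and is regular -/
structure Compat (g g' : Chart P) : Prop where
  con : Constr (g.c ⁻¹' Set.range g'.c)
  reg : ∀ (f' : g'.B) (b : Pt g.B) (b' : Pt g'.B), g.c b = g'.c b' →
    ∃ p q : g.B, b q ≠ 0 ∧ ∀ (x : Pt g.B) (x' : Pt g'.B), g.c x = g'.c x' → x q ≠ 0 →
      x' f' * x q = x p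

/-- a family of pairwise compatible charts -/
def Atlas (A : Set (Chart P)) : Prop := ∀ g ∈ A, ∀ g' ∈ A, Compat g g'

/-- sets with constructible trace on all charts -/
def CT (A : Set (Chart P)) (T : Set P) : Prop := ∀ g ∈ A, Constr (g.c ⁻¹' T)

theorem CT.diff {A : Set (Chart P)} {S T : Set P} (hS : CT A S) (hT : CT A T) : CT A (S \ T) :=
  fun g hg => constr_diff (hS g hg) (hT g hg)

theorem CT.inter {A : Set (Chart P)} {S T : Set P} (hS : CT A S) (hT : CT A T) : CT A (S ∩ T) :=
  fun g hg => constr_inter (hS g hg) (hT g hg)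

theorem CT.union {A : Set (Chart P)} {S T : Set P} (hS : CT A S) (hT : CT A T) : CT A (S ∪ T) :=
  fun g hg => (hS g hg).union (hT g hg)

theorem CT.univ (A : Set (Chart P)) : CT A Set.univ := fun _ _ => constr_univ

theorem CT.range {A : Set (Chart P)} (hA : Atlas A) {g : Chart P} (hg : g ∈ A) :
    CT A (Set.range g.c) := fun g' hg' => (hA g' hg' g hg).con

/-- the invariant of a set computed with a list of charts -/
noncomputable def bL (β : BetaFun) : List (Chart P) → Set P → ℕ → ℤ
  | [], _ => 0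
  | g :: L, T => β g.B (g.c ⁻¹' T) + bL β L (T \ Set.range g.c)

/-- the list of charts covers the set -/
def Covers (L : List (Chart P)) (T : Set P) : Prop := ∀ z ∈ T, ∃ g ∈ L, z ∈ Set.range g.c

theorem Covers.diff {g : Chart P} {L : List (Chart P)} {T : Set P} (h : Covers (g :: L) T) :
    Covers L (T \ Set.range g.c) := by
  intro z hz
  obtain ⟨g', hg', hz'⟩ := h z hz.1
  rcases List.mem_cons.mp hg' with rfl | hg'
  · exact absurd hz' hz.2
  · exact ⟨g', hg', hz'⟩

theorem Covers.mono {L : List (Chart P)} {S T : Set P} (h : Covers L T) (hS : S ⊆ T) :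
    Covers L S := fun z hz => h z (hS hz)

variable {β : BetaFun}

theorem beta_empty (hβ : IsBeta β) (B : Type) [CommRing B] [Algebra ℝ B]
    [Algebra.FiniteType ℝ B] : β B ∅ = 0 := by
  funext a
  have h := hβ.add B ∅ ∅ constr_empty constr_empty (by simp) a
  rw [Set.union_empty] at h
  simpa using h

theorem beta_add (hβ : IsBeta β) (B : Type) [CommRing B] [Algebra ℝ B]
    [Algebra.FiniteType ℝ B] {S T : Set (Pt B)} (hS : Constr S) (hT : Constr T)
    (h : Disjoint S T) : β B (S ∪ T) = β B S + β B T :=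
  funext fun a => hβ.add B S T hS hT h a

theorem bL_empty (hβ : IsBeta β) (L : List (Chart P)) : bL β L ∅ = 0 := by
  induction L with
  | nil => rfl
  | cons g L ih => simp [bL, beta_empty hβ, ih]

theorem bL_union (hβ : IsBeta β) {A : Set (Chart P)} (hA : Atlas A) (L : List (Chart P))
    (hL : ∀ g ∈ L, g ∈ A) {S T : Set P} (hS : CT A S) (hT : CT A T) (h : Disjoint S T) :
    bL β L (S ∪ T) = bL β L S + bL β L T := by
  induction L generalizing S T with
  | nil => simp [bL]
  | cons g L ih =>
    have hg : g ∈ A := hL g List.mem_cons_self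
    have hr := CT.range hA hg
    simp only [bL]
    rw [Set.preimage_union, beta_add hβ g.B (hS g hg) (hT g hg) (h.preimage _),
      Set.union_sdiff_distrib, ih (fun g' hg' => hL g' (List.mem_cons_of_mem _ hg')) (hS.diff hr)
        (hT.diff hr) (h.mono Set.sdiff_subset Set.sdiff_subset)]
    abel

theorem beta_chart (hβ : IsBeta β) {g g' : Chart P} (h : Compat g g') (h' : Compat g' g)
    {T : Set P} (hT : Constr (g.c ⁻¹' T)) (hT' : Constr (g'.c ⁻¹' T))
    (hr : T ⊆ Set.range g.c) (hr' : T ⊆ Set.range g'.c) :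
    β g.B (g.c ⁻¹' T) = β g'.B (g'.c ⁻¹' T) := by
  rcases T.eq_empty_or_nonempty with rfl | ⟨z, hz⟩
  · simp [beta_empty hβ]
  obtain ⟨b₀, -⟩ := hr hz
  obtain ⟨b₀', -⟩ := hr' hz
  have : Nonempty (Pt g.B) := ⟨b₀⟩
  have : Nonempty (Pt g'.B) := ⟨b₀'⟩
  have e1 : ∀ x, g.c x ∈ T → g'.c (Function.invFun g'.c (g.c x)) = g.c x :=
    fun x hx => Function.invFun_eq (hr' hx)
  have e2 : ∀ x, g'.c x ∈ T → g.c (Function.invFun g.c (g'.c x)) = g'.c x :=
    fun x hx => Function.invFun_eq (hr hx)
  refine hβ.inv g.B g'.B _ _ (fun x => Function.invFun g'.c (g.c x))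
    (fun x => Function.invFun g.c (g'.c x)) hT hT' ⟨?_, ?_, ?_, ?_, ?_, ?_⟩
  · intro x hx
    show g'.c _ ∈ T
    rw [e1 x hx]; exact hx
  · intro x hx
    show g.c _ ∈ T
    rw [e2 x hx]; exact hx
  · intro x hx
    show Function.invFun g.c (g'.c (Function.invFun g'.c (g.c x))) = x
    rw [e1 x hx]; exact Function.leftInverse_invFun g.inj x
  · intro x hx
    show Function.invFun g'.c (g.c (Function.invFun g.c (g'.c x))) = x
    rw [e2 x hx]; exact Function.leftInverse_invFun g'.inj x
  · intro f' b hb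
    obtain ⟨p, q, hq, H⟩ := h.reg f' b _ (e1 b hb).symm
    exact ⟨p, q, hq, fun x hx hxq => H x _ (e1 x hx).symm hxq⟩
  · intro f' b hb
    obtain ⟨p, q, hq, H⟩ := h'.reg f' b _ (e2 b hb).symm
    exact ⟨p, q, hq, fun x hx hxq => H x _ (e2 x hx).symm hxq⟩

theorem bL_sub (hβ : IsBeta β) {A : Set (Chart P)} (hA : Atlas A) (L : List (Chart P))
    (hL : ∀ g ∈ L, g ∈ A) {g : Chart P} (hg : g ∈ A) {T : Set P} (hT : CT A T)
    (hr : T ⊆ Set.range g.c) (hc : Covers L T) : bL β L T = β g.B (g.c ⁻¹' T) := by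
  induction L generalizing T with
  | nil =>
    have : T = ∅ := Set.eq_empty_of_forall_notMem fun z hz => by
      obtain ⟨g', hg', -⟩ := hc z hz
      simp at hg'
    subst this
    simp [bL, beta_empty hβ]
  | cons g' L ih =>
    have hg' : g' ∈ A := hL g' List.mem_cons_self
    have hr' := CT.range hA hg'
    simp only [bL]
    rw [ih (fun g' hg' => hL g' (List.mem_cons_of_mem _ hg')) (hT.diff hr')
      (Set.sdiff_subset.trans hr) hc.diff]
    have e : g'.c ⁻¹' T = g'.c ⁻¹' (T ∩ Set.range g'.c) := by ext x; simp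
    rw [e, beta_chart hβ (hA g' hg' g hg) (hA g hg g' hg') (hT.inter hr' g' hg')
      (hT.inter hr' g hg) Set.inter_subset_right (Set.inter_subset_left.trans hr),
      ← beta_add hβ g.B (hT.inter hr' g hg) (hT.diff hr' g hg)
        ((Set.disjoint_sdiff_inter.symm).preimage _), ← Set.preimage_union, Set.inter_union_sdiff]

theorem bL_indep (hβ : IsBeta β) {A : Set (Chart P)} (hA : Atlas A) (L L' : List (Chart P))
    (hL : ∀ g ∈ L, g ∈ A) (hL' : ∀ g ∈ L', g ∈ A) {T : Set P} (hT : CT A T)
    (hc : Covers L T) (hc' : Covers L' T) : bL β L T = bL β L' T := by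
  induction L' generalizing T with
  | nil =>
    have : T = ∅ := Set.eq_empty_of_forall_notMem fun z hz => by
      obtain ⟨g', hg', -⟩ := hc' z hz
      simp at hg'
    subst this
    simp [bL_empty hβ]
  | cons g L' ih =>
    have hg : g ∈ A := hL' g List.mem_cons_self
    have hr := CT.range hA hg
    simp only [bL]
    rw [← ih (fun g' hg' => hL' g' (List.mem_cons_of_mem _ hg')) (hT.diff hr)
      (hc.mono Set.sdiff_subset) hc'.diff]
    have e : g.c ⁻¹' T = g.c ⁻¹' (T ∩ Set.range g.c) := by ext x; simp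
    rw [e, ← bL_sub hβ hA L hL hg (hT.inter hr) Set.inter_subset_right
      (hc.mono Set.inter_subset_left), ← bL_union hβ hA L hL (hT.inter hr) (hT.diff hr)
      Set.disjoint_sdiff_inter.symm, Set.inter_union_sdiff]

/-- push a chart forward along an injection -/
def Chart.map (g : Chart P) (h : P → Q) (hh : Function.Injective h) : Chart Q where
  B := g.B
  c := h ∘ g.c
  inj := hh.comp g.inj

theorem bL_map (h : P → Q) (hh : Function.Injective h) (L : List (Chart P)) (T : Set P) :
    bL β (L.map fun g => g.map h hh) (h '' T) = bL β L T := by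
  induction L generalizing T with
  | nil => rfl
  | cons g L ih =>
    simp only [List.map_cons, bL]
    have e1 : (g.map h hh).c ⁻¹' (h '' T) = g.c ⁻¹' T := by
      ext x
      show h (g.c x) ∈ h '' T ↔ g.c x ∈ T
      exact hh.mem_set_image
    have e2 : h '' T \ Set.range (g.map h hh).c = h '' (T \ Set.range g.c) := by
      rw [Set.image_sdiff hh]
      congr 1
      exact Set.range_comp h g.c
    rw [e1, e2, ih]
    rfl

theorem bL_deg (hβ : IsBeta β) {A : Set (Chart P)} (hA : Atlas A) (L : List (Chart P))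
    (hL : ∀ g ∈ L, g ∈ A) {T : Set P} (hT : CT A T) (a : ℕ)
    (hd : ∀ g ∈ L, ringKrullDim g.B + 1 < a) : bL β L T a = 0 := by
  induction L generalizing T with
  | nil => rfl
  | cons g L ih =>
    have hg : g ∈ A := hL g List.mem_cons_self
    simp only [bL, Pi.add_apply]
    rw [hβ.deg g.B _ (hT g hg) a (hd g List.mem_cons_self),
      ih (fun g' hg' => hL g' (List.mem_cons_of_mem _ hg')) (hT.diff (CT.range hA hg))
        (fun g' hg' => hd g' (List.mem_cons_of_mem _ hg')), add_zero]

/-- the chart on the polynomial ring given by an injection `c` -/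
noncomputable def Chart.poly (g : Chart P) (c : Pt (Polynomial g.B) → Q)
    (hc : Function.Injective c) : Chart Q where
  B := Polynomial g.B
  c := c
  inj := hc

theorem bL_line (hβ : IsBeta β) {A : Set (Chart P)} (hA : Atlas A) (π : Q → P) {ι : Type*}
    (G : ι → Chart P) (c : ∀ i, Pt (Polynomial (G i).B) → Q) (hc : ∀ i, Function.Injective (c i))
    (h1 : ∀ i x, π (c i x) = (G i).c (basePt x))
    (h2 : ∀ i z, π z ∈ Set.range (G i).c → z ∈ Set.range (c i)) (L : List ι)
    (hL : ∀ i ∈ L, G i ∈ A) {T : Set P} (hT : CT A T) :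
    bL β (L.map fun i => (G i).poly (c i) (hc i)) (π ⁻¹' T) 0 = 0 ∧
    ∀ a, bL β (L.map fun i => (G i).poly (c i) (hc i)) (π ⁻¹' T) (a + 1) =
      bL β (L.map G) T a := by
  induction L generalizing T with
  | nil => exact ⟨rfl, fun _ => rfl⟩
  | cons i L ih =>
    have hg : G i ∈ A := hL i List.mem_cons_self
    have e1 : ((G i).poly (c i) (hc i)).c ⁻¹' (π ⁻¹' T) = basePt ⁻¹' ((G i).c ⁻¹' T) := by
      ext x
      show π (c i x) ∈ T ↔ (G i).c (basePt x) ∈ T
      rw [h1]
    have e2 : π ⁻¹' T \ Set.range ((G i).poly (c i) (hc i)).c =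
        π ⁻¹' (T \ Set.range (G i).c) := by
      ext z
      show π z ∈ T ∧ z ∉ Set.range (c i) ↔ π z ∈ T ∧ π z ∉ Set.range (G i).c
      refine and_congr_right fun _ => not_congr ⟨?_, h2 i z⟩
      rintro ⟨x, rfl⟩
      exact ⟨basePt x, (h1 i x).symm⟩
    obtain ⟨ih0, ih1⟩ := ih (fun g' hg' => hL g' (List.mem_cons_of_mem _ hg'))
      (hT.diff (CT.range hA hg))
    simp only [List.map_cons, bL, Pi.add_apply]
    rw [e1, e2, ih0]
    refine ⟨?_, fun a => ?_⟩
    · rw [add_zero]; exact hβ.line0 (G i).B _ (hT _ hg)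
    · rw [ih1]
      congr 1
      exact hβ.line (G i).B _ (hT _ hg) a

theorem beta_single (hβ : IsBeta β) (B : Type) [CommRing B] [Algebra ℝ B]
    [Algebra.FiniteType ℝ B] (b : Pt B) (hb : ∀ x : Pt B, x = b) :
    β B Set.univ = β ℝ Set.univ := by
  refine hβ.inv B ℝ _ _ (fun _ => AlgHom.id ℝ ℝ) (fun _ => b) constr_univ constr_univ
    ⟨fun _ _ => trivial, fun _ _ => trivial, fun x _ => (hb x).symm,
      fun y _ => Subsingleton.elim _ _, ?_, ?_⟩
  · intro f' x _
    exact ⟨algebraMap ℝ B f', 1, by simp, fun y _ _ => by simp⟩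
  · intro f y _
    refine ⟨b f, 1, by simp, fun y _ _ => ?_⟩
    have : y = AlgHom.id ℝ ℝ := Subsingleton.elim _ _
    simp [this]

end Pool.Agent.MP_696f7f_ag.H75
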