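import Pool.Agent.MP_696f7f_ag.H75.Chart

/-! Real points of schemes and charts given by immersions of affine schemes. -/

namespace Pool.Agent.MP_696f7f_ag.H75

open Pool.Agent.MP_696f7f_ag.H96 AlgebraicGeometry CategoryTheory Limits TopologicalSpace

noncomputable section

/-- the point of `Spec ℝ` -/
abbrev pt0 : Spec (CommRingCat.of ℝ) := IsLocalRing.closedPoint ℝ

theorem lift_point {X Y : Scheme.{0}} (h : Y ⟶ X) [SurjectiveOnStalks h]
    (z : Spec (.of ℝ) ⟶ X) (y : Y) (hy : h y = z pt0) : ∃ w : Spec (.of ℝ) ⟶ Y, w ≫ h = z := by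
  obtain ⟨⟨x, φ⟩, rfl⟩ := (Scheme.SpecToEquivOfField ℝ X).symm.surjective z
  obtain rfl : h y = x := by simpa [Scheme.SpecToEquivOfField] using hy
  have hb : Function.Bijective (h.residueFieldMap y) := by
    refine ⟨(h.residueFieldMap y).hom.injective, fun t => ?_⟩
    obtain ⟨s, rfl⟩ := Y.residue_surjective y t
    obtain ⟨r, rfl⟩ := h.stalkMap_surjective y s
    exact ⟨X.residue _ r, congrArg (fun F => F.hom r) (Scheme.residue_residueFieldMap h y)⟩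
  have : IsIso (h.residueFieldMap y) := (ConcreteCategory.isIso_iff_bijective _).mpr hb
  refine ⟨Spec.map (inv (h.residueFieldMap y) ≫ φ) ≫ Y.fromSpecResidueField y, ?_⟩
  rw [Category.assoc, ← Scheme.Hom.SpecMap_residueFieldMap_fromSpecResidueField,
    ← Spec.map_comp_assoc]
  simp [Scheme.SpecToEquivOfField]

theorem le_preimage_of_mem {X : Scheme.{0}} (z : Spec (.of ℝ) ⟶ X) (V : X.Opens)
    (h : z pt0 ∈ V) : ⊤ ≤ z ⁻¹ᵁ V := by
  intro p _
  have : p = pt0 := Subsingleton.elim (α := PrimeSpectrum ℝ) _ _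
  subst this
  exact h

/-- the value of a section at a real point -/
def ev {X : Scheme.{0}} (z : Spec (.of ℝ) ⟶ X) (V : X.Opens) (h : z pt0 ∈ V) :
    Γ(X, V) ⟶ .of ℝ :=
  z.appLE V ⊤ (le_preimage_of_mem z V h) ≫ (Scheme.ΓSpecIso (.of ℝ)).hom

theorem map_ev {X : Scheme.{0}} (z : Spec (.of ℝ) ⟶ X) {V W : X.Opens} (i : W ≤ V)
    (h : z pt0 ∈ W) (s : Γ(X, V)) :
    ev z W h (X.presheaf.map (homOfLE i).op s) = ev z V (i h) s := by
  have : X.presheaf.map (homOfLE i).op ≫ ev z W h = ev z V (i h) := by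
    rw [ev, ev, ← Category.assoc, Scheme.Hom.map_appLE]
  exact congrArg (fun F => F.hom s) this

theorem appLE_ev {X Y : Scheme.{0}} (g : Y ⟶ X) (w : Spec (.of ℝ) ⟶ Y) (V : X.Opens)
    (W : Y.Opens) (e : W ≤ g ⁻¹ᵁ V) (h : w pt0 ∈ W) (h' : (w ≫ g) pt0 ∈ V) (s : Γ(X, V)) :
    ev w W h (g.appLE V W e s) = ev (w ≫ g) V h' s := by
  have : g.appLE V W e ≫ ev w W h = ev (w ≫ g) V h' := by
    rw [ev, ev, ← Category.assoc, Scheme.Hom.appLE_comp_appLE]
  exact congrArg (fun F => F.hom s) this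

theorem ev_congr {X : Scheme.{0}} {z z' : Spec (.of ℝ) ⟶ X} (e : z = z') (V : X.Opens)
    (h : z pt0 ∈ V) (h' : z' pt0 ∈ V) (s : Γ(X, V)) : ev z V h s = ev z' V h' s := by
  subst e; rfl

theorem ev_top {B : CommRingCat.{0}} (x : B ⟶ .of ℝ) (f : B) :
    ev (Spec.map x) ⊤ trivial ((Scheme.ΓSpecIso B).inv f) = x f := by
  have : (Scheme.ΓSpecIso B).inv ≫ ev (Spec.map x) ⊤ trivial = x := by
    have e : (Spec.map x).appLE ⊤ ⊤ (le_preimage_of_mem _ ⊤ trivial) = (Spec.map x).appTop :=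
      Scheme.Hom.appLE_eq_app _
    rw [ev, e, Scheme.ΓSpecIso_naturality, Iso.inv_hom_id_assoc]
  exact congrArg (fun F => F.hom f) this

theorem mem_basicOpen_iff {B : CommRingCat.{0}} (x : B ⟶ .of ℝ) (q : B) :
    (Spec.map x) pt0 ∈ (Spec B).basicOpen ((Scheme.ΓSpecIso B).inv q) ↔ x q ≠ 0 := by
  rw [basicOpen_eq_of_affine]
  show q ∉ (PrimeSpectrum.comap x.hom (IsLocalRing.closedPoint ℝ)).asIdeal ↔ _
  rw [PrimeSpectrum.comap_asIdeal, Ideal.mem_comap]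
  show x q ∉ IsLocalRing.maximalIdeal ℝ ↔ _
  simp

theorem exists_frac {B : CommRingCat.{0}} (W : (Spec B).Opens) (τ : Γ(Spec B, W))
    (b : B ⟶ .of ℝ) (hb : (Spec.map b) pt0 ∈ W) :
    ∃ p q : B, b q ≠ 0 ∧ ∀ x : B ⟶ .of ℝ, x q ≠ 0 →
      ∃ h : (Spec.map x) pt0 ∈ W, ev (Spec.map x) W h τ * x q = x p := by
  obtain ⟨r, hrW, hbr⟩ := (isAffineOpen_top (Spec B)).exists_basicOpen_le ⟨_, hb⟩ trivial
  obtain ⟨r, rfl⟩ := (ConcreteCategory.bijective_of_isIso (Scheme.ΓSpecIso B).inv).2 r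
  have hloc := (isAffineOpen_top (Spec B)).isLocalization_basicOpen ((Scheme.ΓSpecIso B).inv r)
  obtain ⟨⟨p, ⟨_, n, rfl⟩⟩, hp⟩ := IsLocalization.surj
    (Submonoid.powers ((Scheme.ΓSpecIso B).inv r)) ((Spec B).presheaf.map (homOfLE hrW).op τ)
  obtain ⟨p, rfl⟩ := (ConcreteCategory.bijective_of_isIso (Scheme.ΓSpecIso B).inv).2 p
  have hbr' : b r ≠ 0 := (mem_basicOpen_iff b r).mp hbr
  refine ⟨p * r, r ^ (n + 1), by rw [map_pow]; exact pow_ne_zero _ hbr', fun x hx => ?_⟩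
  have hxr : x r ≠ 0 := fun h => hx (by rw [map_pow, h]; simp)
  have hx' := (mem_basicOpen_iff x r).mpr hxr
  refine ⟨hrW hx', ?_⟩
  have h1 := congrArg (ev (Spec.map x) _ hx') hp
  rw [map_mul, map_ev] at h1
  have h2 : ∀ f : B, ev (Spec.map x) _ hx' (algebraMap Γ(Spec B, ⊤) _ ((Scheme.ΓSpecIso B).inv f))
      = x f := fun f => by
    rw [← ev_top x f]
    exact map_ev (Spec.map x) le_top hx' _
  simp only [← map_pow] at h1
  rw [h2, h2] at h1
  rw [pow_succ, map_mul, map_mul, ← mul_assoc, h1]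

theorem exists_section {X : Scheme.{0}} {B : CommRingCat.{0}} (g : Spec B ⟶ X) [IsPreimmersion g]
    (f : B) (y : Spec B) : ∃ (V : X.Opens) (σ : Γ(X, V)), g y ∈ V ∧
      ∀ (x : B ⟶ .of ℝ) (h : (Spec.map x ≫ g) pt0 ∈ V), ev (Spec.map x ≫ g) V h σ = x f := by
  obtain ⟨t, ht⟩ := g.stalkMap_surjective y
    ((Spec B).presheaf.germ ⊤ y trivial ((Scheme.ΓSpecIso B).inv f))
  obtain ⟨V, hV, σ, rfl⟩ := X.presheaf.exists_germ_eq t
  rw [Scheme.Hom.germ_stalkMap_apply] at ht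
  obtain ⟨N, hN, i₁, i₂, e⟩ := (Spec B).presheaf.germ_eq _ _ _ _ _ ht
  obtain ⟨V', hV', hN'⟩ := g.isEmbedding.isInducing.isOpen_iff.mp N.2
  refine ⟨V ⊓ ⟨V', hV'⟩, X.presheaf.map (homOfLE inf_le_left).op σ, ⟨hV, ?_⟩, fun x h => ?_⟩
  · have : y ∈ g ⁻¹' V' := by rw [hN']; exact hN
    exact this
  · have hxN : (Spec.map x) pt0 ∈ N := by
      have : (Spec.map x) pt0 ∈ g ⁻¹' V' := h.2
      rw [hN'] at this
      exact this
    rw [map_ev, ← appLE_ev g (Spec.map x) V N i₁.le hxN, ← ev_top x f,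
      ← map_ev (Spec.map x) i₂.le hxN]
    congr 1

/-- real points of a scheme over the reals -/
def RP {X : Scheme.{0}} (s : X ⟶ Spec (.of ℝ)) : Type :=
  {p : Spec (.of ℝ) ⟶ X // p ≫ s = 𝟙 _}

/-- the map on real points -/
def RP.map {X Y : Scheme.{0}} {s : X ⟶ Spec (.of ℝ)} {t : Y ⟶ Spec (.of ℝ)} (h : Y ⟶ X)
    (hh : h ≫ s = t) (z : RP t) : RP s :=
  ⟨z.1 ≫ h, by rw [Category.assoc, hh]; exact z.2⟩

theorem RP.map_injective {X Y : Scheme.{0}} {s : X ⟶ Spec (.of ℝ)} {t : Y ⟶ Spec (.of ℝ)}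
    (h : Y ⟶ X) [Mono h] (hh : h ≫ s = t) : Function.Injective (RP.map h hh) :=
  fun _ _ e => Subtype.ext ((cancel_mono h).mp (congrArg Subtype.val e))

theorem RP.range_map {X Y : Scheme.{0}} {s : X ⟶ Spec (.of ℝ)} {t : Y ⟶ Spec (.of ℝ)}
    (h : Y ⟶ X) [SurjectiveOnStalks h] (hh : h ≫ s = t) :
    Set.range (RP.map h hh) = {z | z.1 pt0 ∈ Set.range h} := by
  ext z
  constructor
  · rintro ⟨w, rfl⟩
    exact ⟨w.1 pt0, rfl⟩
  · rintro ⟨y, hy⟩
    obtain ⟨w, hw⟩ := lift_point h z.1 y hy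
    exact ⟨⟨w, by rw [← hh, ← Category.assoc, hw]; exact z.2⟩, Subtype.ext hw⟩

variable {B : Type} [CommRing B] [Algebra ℝ B]

/-- the structure morphism of an affine scheme -/
abbrev str (B : Type) [CommRing B] [Algebra ℝ B] : Spec (.of B) ⟶ Spec (.of ℝ) :=
  Spec.map (CommRingCat.ofHom (algebraMap ℝ B))

/-- the real point of the spectrum given by an algebra map -/
def toRP (x : Pt B) : RP (str B) :=
  ⟨Spec.map (CommRingCat.ofHom (x : B →+* ℝ)), by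
    rw [← Spec.map_comp, ← CommRingCat.ofHom_comp, x.comp_algebraMap]
    exact Spec.map_id _⟩

theorem toRP_bijective : Function.Bijective (toRP (B := B)) := by
  constructor
  · intro x y e
    have h := Spec.map_injective (congrArg Subtype.val e)
    exact AlgHom.ext fun f => congrArg (fun F => F.hom f) h
  · rintro ⟨z, hz⟩
    obtain ⟨φ, rfl⟩ := Spec.map_surjective z
    rw [← Spec.map_comp, ← Spec.map_id] at hz
    have h := Spec.map_injective hz
    exact ⟨⟨φ.hom, fun r => congrArg (fun F => F.hom r) h⟩, rfl⟩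

theorem constr_closed [Algebra.FiniteType ℝ B] (C : Set (Spec (.of B))) (hC : IsClosed C) :
    Constr {x : Pt B | (toRP x).1 pt0 ∈ C} := by
  obtain ⟨I, rfl⟩ := (PrimeSpectrum.isClosed_iff_zeroLocus_ideal (R := B) C).mp hC
  have e : {x : Pt B | (toRP x).1 pt0 ∈ PrimeSpectrum.zeroLocus (I : Set B)} =
      {x : Pt B | ∀ f ∈ I, x f = 0} := by
    ext x
    show (I : Set B) ⊆ (PrimeSpectrum.comap (x : B →+* ℝ) (IsLocalRing.closedPoint ℝ)).asIdeal ↔ _
    refine forall_congr' fun f => imp_congr Iff.rfl ?_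
    show x f ∈ IsLocalRing.maximalIdeal ℝ ↔ _
    simp
  exact e ▸ constr_ideal I

theorem constr_locallyClosed [Algebra.FiniteType ℝ B] (C : Set (Spec (.of B)))
    (hC : IsLocallyClosed C) : Constr {x : Pt B | (toRP x).1 pt0 ∈ C} := by
  obtain ⟨U, Z, hU, hZ, rfl⟩ := hC
  have h1 := (constr_closed _ hU.isClosed_compl).compl
  have h := constr_inter h1 (constr_closed Z hZ)
  have e : {x : Pt B | (toRP x).1 pt0 ∈ U ∩ Z} =
      {x : Pt B | (toRP x).1 pt0 ∈ Uᶜ}ᶜ ∩ {x : Pt B | (toRP x).1 pt0 ∈ Z} := by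
    ext x; simp
  exact e ▸ h

/-- the charts given by immersions of affine schemes -/
def IsChart {X : Scheme.{0}} (s : X ⟶ Spec (.of ℝ)) (G : Chart (RP s)) : Prop :=
  ∃ (g : Spec (.of G.B) ⟶ X) (hg : g ≫ s = str G.B), IsImmersion g ∧
    ∀ x, G.c x = RP.map g hg (toRP x)

theorem range_chart {X : Scheme.{0}} {s : X ⟶ Spec (.of ℝ)} {G : Chart (RP s)}
    {g : Spec (.of G.B) ⟶ X} {hg : g ≫ s = str G.B} [IsImmersion g]
    (h : ∀ x, G.c x = RP.map g hg (toRP x)) :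
    Set.range G.c = {z | z.1 pt0 ∈ Set.range g} := by
  have e : G.c = RP.map g hg ∘ toRP := funext h
  rw [e, toRP_bijective.2.range_comp, RP.range_map]

theorem ct_locallyClosed {X : Scheme.{0}} (s : X ⟶ Spec (.of ℝ)) (C : Set X)
    (hC : IsLocallyClosed C) : CT {G | IsChart s G} {z | z.1 pt0 ∈ C} := by
  rintro G ⟨g, hg, hi, h⟩
  have e : G.c ⁻¹' {z | z.1 pt0 ∈ C} = {x | (toRP x).1 pt0 ∈ g ⁻¹' C} := by
    ext x
    rw [Set.mem_preimage, h]
    rfl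
  rw [e]
  exact constr_locallyClosed _ (hC.preimage g.continuous)

theorem atlas {X : Scheme.{0}} (s : X ⟶ Spec (.of ℝ)) : Atlas {G | IsChart s G} := by
  rintro G hG G' ⟨g', hg', hi', h'⟩
  constructor
  · rw [range_chart h']
    exact ct_locallyClosed s _ g'.isLocallyClosed_range G hG
  · obtain ⟨g, hg, hi, h⟩ := hG
    intro f' b b' e
    rw [h, h'] at e
    have e' : (toRP b).1 ≫ g = (toRP b').1 ≫ g' := congrArg Subtype.val e
    obtain ⟨V, σ, hV, H⟩ := exists_section g' f' ((toRP b').1 pt0)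
    have hV' : (toRP b).1 pt0 ∈ g ⁻¹ᵁ V := by
      have : ((toRP b).1 ≫ g) pt0 ∈ V := by rw [e']; exact hV
      exact this
    obtain ⟨p, q, hq, K⟩ := exists_frac (B := .of G.B) (g ⁻¹ᵁ V) (g.appLE V _ le_rfl σ)
      (CommRingCat.ofHom (b : G.B →+* ℝ)) hV'
    refine ⟨p, q, hq, fun x x' ex hx => ?_⟩
    rw [h, h'] at ex
    have ex' : (toRP x).1 ≫ g = (toRP x').1 ≫ g' := congrArg Subtype.val ex
    obtain ⟨hxV, K⟩ := K (CommRingCat.ofHom (x : G.B →+* ℝ)) hx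
    have h1 : ((toRP x).1 ≫ g) pt0 ∈ V := hxV
    have h2 : ((toRP x').1 ≫ g') pt0 ∈ V := ex' ▸ h1
    have h3 := H (CommRingCat.ofHom (x' : G'.B →+* ℝ)) h2
    have h4 := appLE_ev g (toRP x).1 V _ le_rfl hxV h1 σ
    have h5 := ev_congr ex' V h1 h2 σ
    have h6 : ev (toRP x).1 _ hxV (g.appLE V _ le_rfl σ) = x' f' := h4.trans (h5.trans h3)
    rw [← h6]
    exact K

end

end Pool.Agent.MP_696f7f_ag.H75
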